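import Mathlib
import Pool.Agent.Lib.MP_3f93e8_co.Defs
import Pool.Agent.Lib.MP_3f93e8_co.SixB

set_option autoImplicit false

namespace Pool.Agent.Results.MP_3f93e8_co.MaxSix

open Pool.Agent.Lib.MP_3f93e8_co

/-- A graph on at most six vertices fails to be a max-tolerance graph if and only if it is
`K_{3,3}`. -/
theorem result (V : Type) [Fintype V] (hV : Fintype.card V ≤ 6) (G : SimpleGraph V) :
    ¬ IsToleranceGraph (fun x y => max x y) G ↔
      Nonempty (G ≃g completeBipartiteGraph (Fin 3) (Fin 3)) := by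
  constructor
  · intro h
    rcases good_of_card hV G with h1 | ⟨⟨e⟩⟩ | ⟨⟨e⟩⟩
    · exact absurd (h1 _ isArchimedeanFn_max) h
    · exact ⟨e.trans isoK33.symm⟩
    · exact absurd (tol_iso e.toEmbedding oct_max) h
  · rintro ⟨e⟩ h
    exact k33_not_max (tol_iso e.symm.toEmbedding h)

end Pool.Agent.Results.MP_3f93e8_co.MaxSix
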