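import Mathlib
import Pool.Agent.Lib.MP_3f93e8_co.Defs
import Pool.Agent.Lib.MP_3f93e8_co.Rob

set_option autoImplicit false

namespace Pool.Agent.Results.MP_3f93e8_co.Outerplanar

open Pool.Agent.Lib.MP_3f93e8_co

/-- If the vertices of a finite graph are linearly ordered so that two crossing edges `ac`, `bd`
(`a < b < c < d`) always force the edges `bc` and `cd`, then the graph is Archimedean. -/
theorem result (V : Type) [Fintype V] [LinearOrder V] (G : SimpleGraph V)
    (h : ∀ a b c d : V, a < b → b < c → c < d → G.Adj a c → G.Adj b d →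
      G.Adj b c ∧ G.Adj c d) : IsArchimedeanGraph G := by
  let e := (monoEquivOfFin V rfl).symm
  have hlt : ∀ a b : V, (e a : ℕ) < e b → a < b := fun a b hab =>
    e.lt_iff_lt.1 (Fin.lt_def.2 hab)
  exact arch_of_order G (fun v => (e v : ℕ)) (fun a b hab => e.injective (Fin.ext hab))
    fun a b c d h1 h2 h3 => h a b c d (hlt _ _ h1) (hlt _ _ h2) (hlt _ _ h3)

end Pool.Agent.Results.MP_3f93e8_co.Outerplanar
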