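import Mathlib
import Pool.Agent.Lib.MP_3f93e8_co.Defs
import Pool.Agent.Lib.MP_3f93e8_co.SixB

set_option autoImplicit false

namespace Pool.Agent.Results.MP_3f93e8_co.SixVertices

open Pool.Agent.Lib.MP_3f93e8_co

/-- A graph on at most six vertices is non-Archimedean if and only if it is `K_{3,3}` or the
octahedron `K_{2,2,2}`. -/
theorem result (V : Type) [Fintype V] (hV : Fintype.card V ≤ 6) (G : SimpleGraph V) :
    ¬ IsArchimedeanGraph G ↔ Nonempty (G ≃g completeBipartiteGraph (Fin 3) (Fin 3)) ∨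
      Nonempty (G ≃g SimpleGraph.completeEquipartiteGraph 3 2) := by
  constructor
  · intro h
    rcases good_of_card hV G with h1 | ⟨⟨e⟩⟩ | ⟨⟨e⟩⟩
    · exact absurd h1 h
    · exact Or.inl ⟨e.trans isoK33.symm⟩
    · exact Or.inr ⟨e.trans isoOct.symm⟩
  · rintro (⟨⟨e⟩⟩ | ⟨⟨e⟩⟩) h
    · exact k33_not_max (arch_iso e.symm.toEmbedding h _ isArchimedeanFn_max)
    · exact octahedron_not_sum (arch_iso e.symm.toEmbedding h _ isArchimedeanFn_add)

end Pool.Agent.Results.MP_3f93e8_co.SixVertices
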