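import Mathlib
import Pool.Agent.Lib.MP_3f93e8_co.Defs
import Pool.Agent.Lib.MP_3f93e8_co.TreeB

set_option autoImplicit false

namespace Pool.Agent.Results.MP_3f93e8_co.TreeCliques

open Pool.Agent.Lib.MP_3f93e8_co

/-- Every finite Archimedean graph has a tree decomposition in which every bag is a union of four
cliques: the bag of the node `t` of the finite tree `T` is `C t 0 ∪ C t 1 ∪ C t 2 ∪ C t 3`. -/
theorem result (V : Type) [Fintype V] (G : SimpleGraph V) (h : IsArchimedeanGraph G) :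
    ∃ (ι : Type) (_ : Finite ι) (T : SimpleGraph ι) (C : ι → Fin 4 → Set V), T.IsTree ∧
      (∀ t k, G.IsClique (C t k)) ∧
      (∀ u v, G.Adj u v → ∃ t, (∃ k, u ∈ C t k) ∧ ∃ k, v ∈ C t k) ∧
      ∀ v, (T.induce {t | ∃ k, v ∈ C t k}).Connected := by
  have h0 : (0 : ℝ) ≤ Fintype.card V := Nat.cast_nonneg _
  have h1 : (1 : ℝ) < 2 * (Fintype.card V : ℝ) + 2 := by linarith
  exact decomp_of_step G h1 (by linarith) (h _ (arch_step h1))

end Pool.Agent.Results.MP_3f93e8_co.TreeCliques
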